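import Pool.Agent.EWR.Romanoff

/-!
# Odd extremities are impossible for the amplitudes `2^n (2^i + q)`
-/

set_option autoImplicit false

namespace Pool.Agent.EWR

open Finset

/-- the property `NC(a,d)`: every integer strictly between `a` and `a + d` has a prime factor in
common with `a` or with `a + d` -/
def NC (a d : ℕ) : Prop :=
  ∀ c : ℕ, a < c → c < a + d → 1 < Nat.gcd c a ∨ 1 < Nat.gcd c (a + d)

/-- if `d - 2^j = 2^s q^e` with a prime `q` not dividing `d`, then the extremity is even -/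
theorem even_of_form {a d j s e q : ℕ} (hd : Even d) (hq : q.Prime)
    (hdq : ¬ q ∣ d) (h : d = 2 ^ j + 2 ^ s * q ^ e) (hNC : NC a d) : Even a := by
  by_contra hodd
  rw [Nat.not_even_iff_odd] at hodd
  have hodd2 : Odd (a + d) := hodd.add_even hd
  have h2j : 0 < 2 ^ j := by positivity
  have h2s : 0 < 2 ^ s * q ^ e := Nat.mul_pos (by positivity) (pow_pos hq.pos _)
  -- a common prime factor of an odd number `x` and `2^s q^e` is `q`
  have key : ∀ x y : ℕ, Odd x → 1 < Nat.gcd y x → (∀ p : ℕ, p ∣ y → p ∣ x → p ∣ 2 ^ s * q ^ e) →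
      q ∣ x := by
    intro x y hx hxy hp
    obtain ⟨p, hp1, hp2⟩ := Nat.exists_prime_and_dvd (show Nat.gcd y x ≠ 1 by omega)
    have hp3 := hp2.trans (Nat.gcd_dvd_right y x)
    have hp4 := hp2.trans (Nat.gcd_dvd_left y x)
    have hp5 := hp p hp4 hp3
    rcases (Nat.Prime.dvd_mul hp1).1 hp5 with h1 | h1
    · have h2 := (Nat.prime_dvd_prime_iff_eq hp1 Nat.prime_two).1 (hp1.dvd_of_dvd_pow h1)
      subst h2
      exact absurd hp3 (Odd.not_two_dvd_nat hx)
    · have h2 := (Nat.prime_dvd_prime_iff_eq hp1 hq).1 (hp1.dvd_of_dvd_pow h1)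
      rwa [h2] at hp3
  -- powers of two are coprime to the differences
  have cop : ∀ x y : ℕ, Odd x → (∀ p : ℕ, p ∣ y → p ∣ x → p ∣ 2 ^ j) → ¬ 1 < Nat.gcd y x := by
    intro x y hx hp hxy
    obtain ⟨p, hp1, hp2⟩ := Nat.exists_prime_and_dvd (show Nat.gcd y x ≠ 1 by omega)
    have hp3 := hp2.trans (Nat.gcd_dvd_right y x)
    have hp4 := hp2.trans (Nat.gcd_dvd_left y x)
    have h1 := hp p hp4 hp3
    have h2 := (Nat.prime_dvd_prime_iff_eq hp1 Nat.prime_two).1 (hp1.dvd_of_dvd_pow h1)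
    subst h2
    exact absurd hp3 (Odd.not_two_dvd_nat hx)
  -- first number: `a + 2^j`
  have h1 : q ∣ a + d := by
    rcases hNC (a + 2 ^ j) (by omega) (by omega) with h2 | h2
    · exact absurd h2 (cop a _ hodd fun p hp1 hp2 => (Nat.dvd_add_right hp2).1 hp1)
    · refine key _ _ hodd2 h2 fun p hp1 hp2 => ?_
      have h3 : a + d = (a + 2 ^ j) + 2 ^ s * q ^ e := by omega
      rw [h3] at hp2
      exact (Nat.dvd_add_right hp1).1 hp2
  -- second number: `a + d - 2^j`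
  have h2 : q ∣ a := by
    rcases hNC (a + 2 ^ s * q ^ e) (by omega) (by omega) with h2 | h2
    · exact key _ _ hodd h2 fun p hp1 hp2 => (Nat.dvd_add_right hp2).1 hp1
    · refine absurd h2 (cop _ _ hodd2 fun p hp1 hp2 => ?_)
      have h3 : a + d = (a + 2 ^ s * q ^ e) + 2 ^ j := by omega
      rw [h3] at hp2
      exact (Nat.dvd_add_right hp1).1 hp2
  exact hdq ((Nat.dvd_add_right h2).1 h1)

/-- the odd `m` such that the extremity must be even for all amplitudes `2^n m`, `n ≥ 1`, have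
positive lower density -/
theorem parity_density : ∃ δ : ℝ, 0 < δ ∧ ∃ N₀ : ℕ, ∀ N : ℕ, N₀ ≤ N →
    δ * N ≤ ({m : ℕ | m ≤ N ∧ Odd m ∧ ∀ n : ℕ, 1 ≤ n → ∀ a : ℕ, NC a (2 ^ n * m) →
      Even a}.ncard : ℝ) := by
  classical
  obtain ⟨c, hc, N₁, hrom⟩ := romanoff
  refine ⟨c, hc, N₁, fun N hN => ?_⟩
  have h1 := hrom N hN
  have hfin : {m : ℕ | m ≤ N ∧ Odd m ∧ ∀ n : ℕ, 1 ≤ n → ∀ a : ℕ, NC a (2 ^ n * m) →
      Even a}.Finite := (Set.finite_Iic N).subset fun d hd => hd.1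
  have h2 : ((Icc 1 N).filter fun n => ∃ i q : ℕ, 1 ≤ i ∧ 2 < q ∧ q.Prime ∧
      n = 2 ^ i + q).card ≤ {m : ℕ | m ≤ N ∧ Odd m ∧ ∀ n : ℕ, 1 ≤ n → ∀ a : ℕ,
        NC a (2 ^ n * m) → Even a}.ncard := by
    rw [← Set.ncard_coe_finset]
    apply Set.ncard_le_ncard _ hfin
    intro m hm
    rw [mem_coe, mem_filter, mem_Icc] at hm
    obtain ⟨⟨hm1, hm2⟩, i, q, hi, hq2, hq, hm3⟩ := hm
    have hqo : Odd q := hq.odd_of_ne_two (by omega)
    have hio : Even (2 ^ i) := Nat.even_pow.2 ⟨even_two, by omega⟩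
    refine ⟨hm2, ?_, fun n hn a ha => ?_⟩
    · rw [hm3]
      exact hio.add_odd hqo
    · refine even_of_form (j := n + i) (s := n) (e := 1) (q := q)
        ((Nat.even_pow.2 ⟨even_two, by omega⟩).mul_right m) hq ?_ ?_ ha
      · intro h3
        rw [hm3, mul_add] at h3
        have h4 : q ∣ 2 ^ n * 2 ^ i := (Nat.dvd_add_left (dvd_mul_left q (2 ^ n))).1 h3
        rw [← pow_add] at h4
        have h5 := (Nat.prime_dvd_prime_iff_eq hq Nat.prime_two).1 (hq.dvd_of_dvd_pow h4)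
        omega
      · rw [hm3, pow_add]
        ring
  refine le_trans h1 ?_
  exact_mod_cast h2

end Pool.Agent.EWR
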