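import Pool.Agent.PC.Sieve
import Pool.Agent.GBQ.RhoLow

/-!
# The mean value of `(2^k - 1) / φ(2^k - 1)`
-/

set_option autoImplicit false

namespace Pool.Agent.EWR

open Finset

/-- the primes dividing some `2^k - 1`, `1 ≤ k ≤ m` -/
def SS (m : ℕ) : Finset ℕ := (Icc 1 m).biUnion fun k => (2 ^ k - 1).primeFactors

/-- the weight of a prime -/
noncomputable def w (p : ℕ) : ℝ := 1 / ((p : ℝ) - 1)

theorem mem_SS {m p : ℕ} : p ∈ SS m ↔ ∃ k, (1 ≤ k ∧ k ≤ m) ∧ p ∈ (2 ^ k - 1).primeFactors := by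
  unfold SS
  rw [mem_biUnion]
  simp only [mem_Icc]

theorem pow_sub_ne {k : ℕ} (hk : 1 ≤ k) : 2 ^ k - 1 ≠ 0 := by
  have : 2 ^ 1 ≤ 2 ^ k := Nat.pow_le_pow_right (by norm_num) hk
  omega

theorem prime_of_SS {m p : ℕ} (h : p ∈ SS m) : p.Prime := by
  obtain ⟨k, _, h2⟩ := mem_SS.1 h
  exact Nat.prime_of_mem_primeFactors h2

theorem w_nonneg {p : ℕ} (hp : p.Prime) : 0 ≤ w p := by
  have : (2 : ℝ) ≤ p := by exact_mod_cast hp.two_le
  unfold w
  apply div_nonneg zero_le_one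
  linarith

theorem one_add_w {p : ℕ} (hp : p.Prime) : (1 - 1 / (p : ℝ))⁻¹ = 1 + w p := by
  have : (2 : ℝ) ≤ p := by exact_mod_cast hp.two_le
  have h1 : (p : ℝ) ≠ 0 := by linarith
  have h2 : (p : ℝ) - 1 ≠ 0 := by linarith
  have h3 : 1 - 1 / (p : ℝ) = (p - 1) / p := by field_simp
  rw [h3, inv_div]
  unfold w
  field_simp
  ring

theorem card_primeFactors_le {k : ℕ} (hk : 1 ≤ k) : (2 ^ k - 1).primeFactors.card ≤ k := by
  have h1 : 2 ^ (2 ^ k - 1).primeFactors.card ≤ ∏ p ∈ (2 ^ k - 1).primeFactors, p := by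
    rw [← Finset.prod_const]
    exact Finset.prod_le_prod' fun p hp => (Nat.prime_of_mem_primeFactors hp).two_le
  have h2 : ∏ p ∈ (2 ^ k - 1).primeFactors, p ≤ 2 ^ k - 1 :=
    Nat.le_of_dvd (Nat.pos_of_ne_zero (pow_sub_ne hk)) (Nat.prod_primeFactors_dvd _)
  have h3 : 2 ^ (2 ^ k - 1).primeFactors.card ≤ 2 ^ k :=
    h1.trans (h2.trans (Nat.sub_le _ _))
  exact (Nat.pow_le_pow_iff_right (by norm_num)).1 h3

theorem card_SS (m : ℕ) : (SS m).card ≤ m ^ 2 := by
  unfold SS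
  refine card_biUnion_le.trans ?_
  have : ∑ k ∈ Icc 1 m, (2 ^ k - 1).primeFactors.card ≤ ∑ k ∈ Icc 1 m, m := by
    apply Finset.sum_le_sum
    intro k hk
    rw [mem_Icc] at hk
    exact (card_primeFactors_le hk.1).trans hk.2
  refine this.trans ?_
  rw [sum_const, Nat.card_Icc, smul_eq_mul]
  simp only [Nat.add_sub_cancel]
  exact le_of_eq (sq m).symm

/-- the product over the primes dividing the first `m` numbers -/
noncomputable def PP (m : ℕ) : ℝ := ∏ p ∈ SS m, (1 + w p)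

theorem PP_eq (m : ℕ) : PP m = ∑ t ∈ (SS m).powerset, ∏ p ∈ t, w p := by
  unfold PP
  rw [Finset.prod_one_add]

theorem one_le_PP (m : ℕ) : 1 ≤ PP m := by
  unfold PP
  have h1 : ∏ p ∈ SS m, (1 : ℝ) ≤ ∏ p ∈ SS m, (1 + w p) := by
    apply Finset.prod_le_prod
    · intro p _
      norm_num
    · intro p hp
      have := w_nonneg (prime_of_SS hp)
      linarith
  rwa [Finset.prod_const_one] at h1

theorem PP_le : ∃ C : ℝ, 0 < C ∧ ∀ m : ℕ, 1 ≤ m → PP m ≤ C * Real.sqrt m := by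
  obtain ⟨c, hc, hrho⟩ := GBQ.thm_RhoLow
  refine ⟨Real.exp 1 * (4 * c⁻¹) , by positivity, fun m hm => ?_⟩
  set Z := m ^ 2 + 1 with hZ
  have hm1 : (1 : ℝ) ≤ m := by exact_mod_cast hm
  have hZ2 : 2 ≤ Z := by
    have : 1 ≤ m ^ 2 := Nat.one_le_pow _ _ hm
    omega
  have hZ0 : (0 : ℝ) < Z := by exact_mod_cast (by omega : 0 < Z)
  have hlZ : 0 < Real.log Z := Real.log_pos (by exact_mod_cast (by omega : 1 < Z))
  have h1 : PP m = (∏ p ∈ (SS m).filter (· ≤ Z), (1 + w p)) *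
      ∏ p ∈ (SS m).filter (fun p => ¬ p ≤ Z), (1 + w p) := by
    unfold PP
    rw [Finset.prod_filter_mul_prod_filter_not]
  have h2 : ∏ p ∈ (SS m).filter (· ≤ Z), (1 + w p) ≤ ∏ p ∈ GBQ.pr Z, (1 + w p) := by
    have hsub : (SS m).filter (· ≤ Z) ⊆ GBQ.pr Z := by
      intro p hp
      rw [mem_filter] at hp
      have := prime_of_SS hp.1
      simp only [GBQ.pr, mem_filter, mem_range]
      exact ⟨by omega, this⟩
    rw [← Finset.prod_sdiff hsub]
    apply le_mul_of_one_le_left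
    · apply Finset.prod_nonneg
      intro p hp
      rw [mem_filter] at hp
      have := w_nonneg (prime_of_SS hp.1)
      linarith
    · have h1 : ∏ p ∈ GBQ.pr Z \ (SS m).filter (· ≤ Z), (1 : ℝ) ≤
          ∏ p ∈ GBQ.pr Z \ (SS m).filter (· ≤ Z), (1 + w p) := by
        apply Finset.prod_le_prod
        · intro p _
          norm_num
        · intro p hp
          have hp' : p.Prime := by
            rw [mem_sdiff] at hp
            have := hp.1
            simp only [GBQ.pr, mem_filter] at this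
            exact this.2
          have := w_nonneg hp'
          linarith
      rwa [Finset.prod_const_one] at h1
  have h3 : ∏ p ∈ GBQ.pr Z, (1 + w p) = (GBQ.rho Z)⁻¹ := by
    unfold GBQ.rho
    rw [← Finset.prod_inv_distrib]
    apply Finset.prod_congr rfl
    intro p hp
    have hp' : p.Prime := by
      simp only [GBQ.pr, mem_filter] at hp
      exact hp.2
    rw [one_add_w hp']
  have h4 : (GBQ.rho Z)⁻¹ ≤ c⁻¹ * Real.log Z := by
    have h5 := hrho Z hZ2
    have h6 : (GBQ.rho Z)⁻¹ ≤ (c / Real.log Z)⁻¹ := inv_anti₀ (by positivity) h5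
    rw [inv_div] at h6
    calc (GBQ.rho Z)⁻¹ ≤ Real.log Z / c := h6
      _ = c⁻¹ * Real.log Z := by ring
  have h5 : ∏ p ∈ (SS m).filter (fun p => ¬ p ≤ Z), (1 + w p) ≤ Real.exp 1 := by
    have h6 : ∀ p ∈ (SS m).filter (fun p => ¬ p ≤ Z), 1 + w p ≤ Real.exp (1 / Z) := by
      intro p hp
      rw [mem_filter] at hp
      have h7 : (Z : ℝ) ≤ (p : ℝ) - 1 := by
        have : Z + 1 ≤ p := by omega
        have : ((Z + 1 : ℕ) : ℝ) ≤ p := by exact_mod_cast this
        push_cast at this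
        linarith
      have h8 : w p ≤ 1 / Z := by
        unfold w
        exact one_div_le_one_div_of_le hZ0 h7
      have h9 := Real.add_one_le_exp (1 / (Z : ℝ))
      linarith
    calc ∏ p ∈ (SS m).filter (fun p => ¬ p ≤ Z), (1 + w p)
        ≤ ∏ p ∈ (SS m).filter (fun p => ¬ p ≤ Z), Real.exp (1 / Z) := by
          apply Finset.prod_le_prod
          · intro p hp
            rw [mem_filter] at hp
            have := w_nonneg (prime_of_SS hp.1)
            linarith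
          · exact h6
      _ = Real.exp (((SS m).filter (fun p => ¬ p ≤ Z)).card * (1 / Z)) := by
          rw [Finset.prod_const, ← Real.exp_nat_mul]
      _ ≤ Real.exp 1 := by
          apply Real.exp_le_exp.2
          have h7 : (((SS m).filter (fun p => ¬ p ≤ Z)).card : ℝ) ≤ Z := by
            have h8 := (card_le_card (filter_subset (fun p => ¬ p ≤ Z) (SS m))).trans (card_SS m)
            exact_mod_cast (by omega : ((SS m).filter (fun p => ¬ p ≤ Z)).card ≤ Z)
          rw [mul_one_div, div_le_one hZ0]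
          exact h7
  have h6 : Real.log Z ≤ 4 * Real.sqrt m := by
    have h7 : Real.log Z ≤ Real.log ((2 : ℝ) * m ^ 2) := by
      apply Real.log_le_log hZ0
      rw [hZ]
      push_cast
      nlinarith
    have h8 : Real.log ((2 : ℝ) * m ^ 2) = Real.log 2 + 4 * Real.log (Real.sqrt m) := by
      rw [Real.log_mul (by norm_num) (by positivity), Real.log_pow, Real.log_sqrt (by linarith)]
      push_cast
      ring
    have h9 := Real.log_le_sub_one_of_pos (x := Real.sqrt m) (by positivity)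
    have h10 := Real.log_two_lt_d9
    linarith
  rw [h1]
  calc _ ≤ (c⁻¹ * Real.log Z) * Real.exp 1 := by
        apply mul_le_mul (h2.trans (h3.le.trans h4)) h5
        · apply Finset.prod_nonneg
          intro p hp
          rw [mem_filter] at hp
          have := w_nonneg (prime_of_SS hp.1)
          linarith
        · positivity
    _ ≤ (c⁻¹ * (4 * Real.sqrt m)) * Real.exp 1 := by
        apply mul_le_mul_of_nonneg_right _ (Real.exp_pos 1).le
        exact mul_le_mul_of_nonneg_left h6 (by positivity)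
    _ = _ := by ring

/-- the expansion of the ratio -/
theorem ratio_expand {k m : ℕ} (hk : 1 ≤ k) (hkm : k ≤ m) :
    ((2 ^ k - 1 : ℕ) : ℝ) / Nat.totient (2 ^ k - 1) =
      ∑ t ∈ (SS m).powerset, if t ⊆ (2 ^ k - 1).primeFactors then ∏ p ∈ t, w p else 0 := by
  rw [PC.BlockB.ratio_eq (Nat.pos_of_ne_zero (pow_sub_ne hk))]
  have h1 : ∏ p ∈ (2 ^ k - 1 : ℕ).primeFactors, (1 - 1 / ((p : ℕ) : ℝ))⁻¹ =
      ∏ p ∈ (2 ^ k - 1 : ℕ).primeFactors, (1 + w p) :=
    Finset.prod_congr rfl fun p hp => one_add_w (Nat.prime_of_mem_primeFactors hp)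
  rw [h1, Finset.prod_one_add, ← Finset.sum_filter]
  apply Finset.sum_congr _ (fun _ _ => rfl)
  ext t
  rw [mem_powerset, mem_filter, mem_powerset]
  refine ⟨fun h => ⟨fun p hp => mem_SS.2 ⟨k, ⟨hk, hkm⟩, h hp⟩, h⟩, fun h => h.2⟩

/-- `k ↦` the exponents for which all primes of `t` divide `2^k - 1` are multiples of the least -/
theorem order_exists (t : Finset ℕ) (ht : ∀ p ∈ t, p.Prime) {k : ℕ} (hk : 1 ≤ k)
    (h : t ⊆ (2 ^ k - 1).primeFactors) :
    ∃ o : ℕ, 1 ≤ o ∧ t ⊆ (2 ^ o - 1).primeFactors ∧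
      ∀ j : ℕ, 1 ≤ j → t ⊆ (2 ^ j - 1).primeFactors → o ∣ j := by
  have key : ∀ j : ℕ, 1 ≤ j → (t ⊆ (2 ^ j - 1).primeFactors ↔
      (2 : ZMod (∏ p ∈ t, p)) ^ j = 1) := by
    intro j hj
    have h1 : (∏ p ∈ t, p) ∣ 2 ^ j - 1 ↔ (2 : ZMod (∏ p ∈ t, p)) ^ j = 1 := by
      rw [← ZMod.natCast_eq_zero_iff, Nat.cast_sub Nat.one_le_two_pow]
      push_cast
      rw [sub_eq_zero]
    rw [← h1]
    constructor
    · intro h2
      exact Finset.prod_primes_dvd _ (fun p hp => (ht p hp).prime)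
        (fun p hp => Nat.dvd_of_mem_primeFactors (h2 hp))
    · intro h2 p hp
      rw [Nat.mem_primeFactors]
      exact ⟨ht p hp, (Finset.dvd_prod_of_mem _ hp).trans h2, pow_sub_ne hj⟩
  have h1 := (key k hk).1 h
  have h2 : 0 < orderOf (2 : ZMod (∏ p ∈ t, p)) := by
    rw [orderOf_pos_iff, isOfFinOrder_iff_pow_eq_one]
    exact ⟨k, hk, h1⟩
  refine ⟨orderOf (2 : ZMod (∏ p ∈ t, p)), h2, (key _ h2).2 (pow_orderOf_eq_one _), ?_⟩
  intro j hj hj2
  exact orderOf_dvd_of_pow_eq_one ((key j hj).1 hj2)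

theorem tele (L o : ℕ) (ho : 1 ≤ o) (hoL : o ≤ L) :
    (1 : ℝ) / o = ∑ m ∈ Icc o L, 1 / ((m : ℝ) * (m + 1)) + 1 / ((L : ℝ) + 1) := by
  induction L, hoL using Nat.le_induction with
  | base =>
    rw [Icc_self, sum_singleton]
    have : (0 : ℝ) < o := by exact_mod_cast ho
    field_simp
    ring
  | succ n hn ih =>
    rw [← Finset.insert_Icc_right_eq_Icc_add_one (by omega), sum_insert (by simp), ih]
    have : (0 : ℝ) < n := by exact_mod_cast (by omega : 0 < n)
    push_cast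
    field_simp
    ring

/-- the number of exponents -/
theorem count_le (L : ℕ) (t : Finset ℕ) (ht : ∀ p ∈ t, p.Prime) :
    (((Icc 1 L).filter fun k => t ⊆ (2 ^ k - 1).primeFactors).card : ℝ) ≤
      L * (∑ m ∈ Icc 1 L, (if t ⊆ SS m then 1 / ((m : ℝ) * (m + 1)) else 0) +
        (if t ⊆ SS L then 1 / ((L : ℝ) + 1) else 0)) := by
  by_cases hne : ((Icc 1 L).filter fun k => t ⊆ (2 ^ k - 1).primeFactors).Nonempty
  · obtain ⟨k, hk⟩ := hne
    rw [mem_filter, mem_Icc] at hk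
    obtain ⟨⟨hk1, hk2⟩, hk3⟩ := hk
    obtain ⟨o, ho1, ho2, ho3⟩ := order_exists t ht hk1 hk3
    have hoL : o ≤ L := (Nat.le_of_dvd hk1 (ho3 k hk1 hk3)).trans hk2
    have hsub : ∀ m, o ≤ m → t ⊆ SS m := fun m hm p hp =>
      mem_SS.2 ⟨o, ⟨ho1, hm⟩, ho2 hp⟩
    have h1 : ((Icc 1 L).filter fun k => t ⊆ (2 ^ k - 1).primeFactors).card ≤ L / o := by
      rw [← Nat.Ioc_filter_dvd_card_eq_div]
      apply Finset.card_le_card
      intro j hj
      rw [mem_filter, mem_Icc] at hj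
      rw [mem_filter, mem_Ioc]
      exact ⟨⟨by omega, hj.1.2⟩, ho3 j hj.1.1 hj.2⟩
    have h2 : (((Icc 1 L).filter fun k => t ⊆ (2 ^ k - 1).primeFactors).card : ℝ) ≤
        (L : ℝ) * (1 / o) := by
      rw [mul_one_div]
      refine le_trans ?_ Nat.cast_div_le
      exact_mod_cast h1
    refine h2.trans ?_
    apply mul_le_mul_of_nonneg_left _ (Nat.cast_nonneg _)
    rw [tele L o ho1 hoL, if_pos (hsub L hoL)]
    apply add_le_add_left
    rw [← Finset.sum_filter]
    apply Finset.sum_le_sum_of_subset_of_nonneg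
    · intro m hm
      rw [mem_Icc] at hm
      rw [mem_filter, mem_Icc]
      exact ⟨⟨by omega, hm.2⟩, hsub m hm.1⟩
    · intro m _ _
      positivity
  · rw [not_nonempty_iff_eq_empty] at hne
    rw [hne]
    simp only [card_empty, Nat.cast_zero]
    apply mul_nonneg (Nat.cast_nonneg _)
    apply add_nonneg
    · apply Finset.sum_nonneg
      intro m _
      split_ifs <;> positivity
    · split_ifs <;> positivity

theorem sum_ind (L m : ℕ) (hm : m ≤ L) (x : ℝ) :
    ∑ t ∈ (SS L).powerset, (if t ⊆ SS m then x else 0) * ∏ p ∈ t, w p = x * PP m := by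
  have hsub : SS m ⊆ SS L := by
    intro p hp
    obtain ⟨k, hk, h2⟩ := mem_SS.1 hp
    exact mem_SS.2 ⟨k, ⟨hk.1, hk.2.trans hm⟩, h2⟩
  have h1 : ∀ t ∈ (SS L).powerset, (if t ⊆ SS m then x else 0) * ∏ p ∈ t, w p =
      if t ⊆ SS m then x * ∏ p ∈ t, w p else 0 := by
    intro t _
    split_ifs
    · rfl
    · rw [zero_mul]
  rw [Finset.sum_congr rfl h1, ← Finset.sum_filter, PP_eq, Finset.mul_sum]
  apply Finset.sum_congr _ (fun _ _ => rfl)
  ext t
  rw [mem_filter, mem_powerset, mem_powerset]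
  exact ⟨fun h => h.2, fun h => ⟨h.trans hsub, h⟩⟩

/-- **Romanoff's sum**: the mean of `(2^k - 1)/φ(2^k - 1)` is bounded. -/
theorem rom_sum : ∃ C : ℝ, 0 < C ∧ ∀ L : ℕ,
    ∑ k ∈ Icc 1 L, ((2 ^ k - 1 : ℕ) : ℝ) / Nat.totient (2 ^ k - 1) ≤ C * L := by
  obtain ⟨C, hC, hPP⟩ := PP_le
  have hsum : Summable (fun m : ℕ => 1 / (m : ℝ) ^ (3 / 2 : ℝ)) :=
    Real.summable_one_div_nat_rpow.2 (by norm_num)
  set Z := ∑' m : ℕ, 1 / (m : ℝ) ^ (3 / 2 : ℝ) with hZ
  have hZ0 : 0 ≤ Z := tsum_nonneg fun m => by positivity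
  refine ⟨C * Z + C, by positivity, fun L => ?_⟩
  rcases Nat.eq_zero_or_pos L with hL | hL
  · subst hL
    simp
  have h1 : ∑ k ∈ Icc 1 L, ((2 ^ k - 1 : ℕ) : ℝ) / Nat.totient (2 ^ k - 1) =
      ∑ t ∈ (SS L).powerset,
        (((Icc 1 L).filter fun k => t ⊆ (2 ^ k - 1).primeFactors).card : ℝ) * ∏ p ∈ t, w p := by
    have h2 : ∀ k ∈ Icc 1 L, ((2 ^ k - 1 : ℕ) : ℝ) / Nat.totient (2 ^ k - 1) =
        ∑ t ∈ (SS L).powerset, if t ⊆ (2 ^ k - 1).primeFactors then ∏ p ∈ t, w p else 0 := by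
      intro k hk
      rw [mem_Icc] at hk
      exact ratio_expand hk.1 hk.2
    rw [Finset.sum_congr rfl h2, Finset.sum_comm]
    apply Finset.sum_congr rfl
    intro t _
    rw [← Finset.sum_filter, sum_const, nsmul_eq_mul]
  rw [h1]
  have hprime : ∀ t ∈ (SS L).powerset, ∀ p ∈ t, p.Prime := fun t ht p hp =>
    prime_of_SS (mem_powerset.1 ht hp)
  have h2 : ∑ t ∈ (SS L).powerset,
        (((Icc 1 L).filter fun k => t ⊆ (2 ^ k - 1).primeFactors).card : ℝ) * ∏ p ∈ t, w p ≤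
      ∑ t ∈ (SS L).powerset,
        (L * (∑ m ∈ Icc 1 L, (if t ⊆ SS m then 1 / ((m : ℝ) * (m + 1)) else 0) +
          (if t ⊆ SS L then 1 / ((L : ℝ) + 1) else 0))) * ∏ p ∈ t, w p := by
    apply Finset.sum_le_sum
    intro t ht
    apply mul_le_mul_of_nonneg_right (count_le L t (hprime t ht))
    exact Finset.prod_nonneg fun p hp => w_nonneg (hprime t ht p hp)
  refine h2.trans ?_
  have h3 : ∑ t ∈ (SS L).powerset,
        (L * (∑ m ∈ Icc 1 L, (if t ⊆ SS m then 1 / ((m : ℝ) * (m + 1)) else 0) +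
          (if t ⊆ SS L then 1 / ((L : ℝ) + 1) else 0))) * ∏ p ∈ t, w p =
      L * (∑ m ∈ Icc 1 L, 1 / ((m : ℝ) * (m + 1)) * PP m + 1 / ((L : ℝ) + 1) * PP L) := by
    have h4 : ∀ m ∈ Icc 1 L, 1 / ((m : ℝ) * (m + 1)) * PP m =
        ∑ t ∈ (SS L).powerset,
          (if t ⊆ SS m then 1 / ((m : ℝ) * (m + 1)) else 0) * ∏ p ∈ t, w p := by
      intro m hm
      rw [mem_Icc] at hm
      rw [sum_ind L m hm.2]
    rw [Finset.sum_congr rfl h4, ← sum_ind L L le_rfl, Finset.sum_comm, ← Finset.sum_add_distrib,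
      Finset.mul_sum]
    apply Finset.sum_congr rfl
    intro t _
    rw [mul_assoc, add_mul, Finset.sum_mul]
  rw [h3]
  have h5 : ∑ m ∈ Icc 1 L, 1 / ((m : ℝ) * (m + 1)) * PP m ≤ C * Z := by
    calc ∑ m ∈ Icc 1 L, 1 / ((m : ℝ) * (m + 1)) * PP m
        ≤ ∑ m ∈ Icc 1 L, C * (1 / (m : ℝ) ^ (3 / 2 : ℝ)) := by
          apply Finset.sum_le_sum
          intro m hm
          rw [mem_Icc] at hm
          have hm0 : (0 : ℝ) < m := by exact_mod_cast hm.1
          have h6 := hPP m hm.1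
          have h7 : (m : ℝ) ^ (3 / 2 : ℝ) * Real.sqrt m = m * m := by
            rw [Real.sqrt_eq_rpow, ← Real.rpow_add hm0]
            norm_num
            ring
          have h8 : 0 < (m : ℝ) ^ (3 / 2 : ℝ) := by positivity
          rw [one_div_mul_eq_div, div_le_iff₀ (by positivity)]
          calc PP m ≤ C * Real.sqrt m := h6
            _ = C * (1 / (m : ℝ) ^ (3 / 2 : ℝ)) * (m * m) := by
                rw [← h7]
                field_simp
            _ ≤ C * (1 / (m : ℝ) ^ (3 / 2 : ℝ)) * (m * (m + 1)) := by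
                apply mul_le_mul_of_nonneg_left _ (by positivity)
                nlinarith
      _ = C * ∑ m ∈ Icc 1 L, 1 / (m : ℝ) ^ (3 / 2 : ℝ) := by rw [Finset.mul_sum]
      _ ≤ C * Z := by
          apply mul_le_mul_of_nonneg_left _ hC.le
          exact hsum.sum_le_tsum _ (fun m _ => by positivity)
  have h6 : 1 / ((L : ℝ) + 1) * PP L ≤ C := by
    have h7 := hPP L hL
    have hL1 : (1 : ℝ) ≤ L := by exact_mod_cast hL
    rw [one_div_mul_eq_div, div_le_iff₀ (by positivity)]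
    refine h7.trans ?_
    apply mul_le_mul_of_nonneg_left _ hC.le
    have h8 := Real.sqrt_le_sqrt (show (L : ℝ) ≤ (L + 1) ^ 2 by nlinarith)
    rwa [Real.sqrt_sq (by positivity)] at h8
  calc (L : ℝ) * (∑ m ∈ Icc 1 L, 1 / ((m : ℝ) * (m + 1)) * PP m + 1 / ((L : ℝ) + 1) * PP L)
      ≤ L * (C * Z + C) := mul_le_mul_of_nonneg_left (add_le_add h5 h6) (Nat.cast_nonneg _)
    _ = _ := by ring

end Pool.Agent.EWR
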