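import Pool.Agent.EWR.RomSum

/-!
# Romanoff's theorem: a positive proportion of the integers are `2^i + q`
-/

set_option autoImplicit false

namespace Pool.Agent.EWR

open Finset

/-- the odd primes up to `M` -/
def OP (M : ℕ) : Finset ℕ := (Ioc 2 M).filter Nat.Prime

theorem mem_OP {M p : ℕ} : p ∈ OP M ↔ (2 < p ∧ p ≤ M) ∧ p.Prime := by
  unfold OP
  rw [mem_filter, mem_Ioc]

/-- the pairs (exponent, odd prime) -/
def TT (L M : ℕ) : Finset (ℕ × ℕ) := Icc 1 L ×ˢ OP M

/-- the sums -/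
def RR (L M : ℕ) : Finset ℕ := (TT L M).image fun z => 2 ^ z.1 + z.2

/-- Cauchy's inequality -/
theorem cs (L M : ℕ) : ((TT L M).card : ℝ) ^ 2 ≤ (RR L M).card *
    (((TT L M) ×ˢ (TT L M)).filter fun y => 2 ^ y.1.1 + y.1.2 = 2 ^ y.2.1 + y.2.2).card := by
  have h1 : (TT L M).card = ∑ n ∈ RR L M, ((TT L M).filter fun z => 2 ^ z.1 + z.2 = n).card :=
    Finset.card_eq_sum_card_image _ _
  have h2 : (((TT L M) ×ˢ (TT L M)).filter
      fun y => 2 ^ y.1.1 + y.1.2 = 2 ^ y.2.1 + y.2.2).card =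
      ∑ n ∈ RR L M, ((TT L M).filter fun z => 2 ^ z.1 + z.2 = n).card ^ 2 := by
    rw [Finset.card_eq_sum_card_fiberwise (f := fun y : (ℕ × ℕ) × (ℕ × ℕ) => 2 ^ y.1.1 + y.1.2)
      (t := RR L M)]
    · apply Finset.sum_congr rfl
      intro n _
      rw [sq, ← Finset.card_product]
      congr 1
      ext y
      simp only [mem_filter, mem_product]
      constructor
      · rintro ⟨⟨⟨h3, h4⟩, h5⟩, h6⟩
        exact ⟨⟨h3, h6⟩, h4, h5 ▸ h6⟩
      · rintro ⟨⟨h3, h4⟩, h5, h6⟩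
        exact ⟨⟨⟨h3, h5⟩, h4.trans h6.symm⟩, h4⟩
    · intro y hy
      rw [mem_coe, mem_filter, mem_product] at hy
      exact mem_coe.2 (mem_image_of_mem _ hy.1.1)
  rw [h1, h2]
  push_cast
  exact sq_sum_le_card_mul_sum_sq

/-- pairs with given exponents -/
def EE (M i j : ℕ) : Finset (ℕ × ℕ) :=
  (OP M ×ˢ OP M).filter fun y => 2 ^ i + y.1 = 2 ^ j + y.2

theorem energy (L M : ℕ) :
    (((TT L M) ×ˢ (TT L M)).filter fun y => 2 ^ y.1.1 + y.1.2 = 2 ^ y.2.1 + y.2.2).card =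
      ∑ i ∈ Icc 1 L, ∑ j ∈ Icc 1 L, (EE M i j).card := by
  rw [← Finset.sum_product' (s := Icc 1 L) (t := Icc 1 L) (f := fun i j => (EE M i j).card)]
  rw [Finset.card_eq_sum_card_fiberwise (f := fun y : (ℕ × ℕ) × (ℕ × ℕ) => (y.1.1, y.2.1))
      (t := Icc 1 L ×ˢ Icc 1 L)]
  · apply Finset.sum_congr rfl
    rintro ⟨i, j⟩ hij
    rw [mem_product] at hij
    unfold EE
    apply Finset.card_bij (fun y _ => (y.1.2, y.2.2))
    · rintro ⟨⟨a, b⟩, ⟨c, d⟩⟩ hy
      simp only [mem_filter, mem_product, TT, Prod.mk.injEq] at hy ⊢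
      obtain ⟨⟨⟨⟨_, h1⟩, ⟨_, h2⟩⟩, h3⟩, h4, h5⟩ := hy
      subst h4 h5
      exact ⟨⟨h1, h2⟩, h3⟩
    · rintro ⟨⟨a, b⟩, ⟨c, d⟩⟩ hy ⟨⟨a', b'⟩, ⟨c', d'⟩⟩ hy' h
      simp only [mem_filter, mem_product, TT, Prod.mk.injEq] at hy hy' h ⊢
      obtain ⟨_, h4, h5⟩ := hy
      obtain ⟨_, h6, h7⟩ := hy'
      exact ⟨⟨by omega, h.1⟩, by omega, h.2⟩
    · rintro ⟨b, d⟩ hy
      simp only [mem_filter, mem_product] at hy
      refine ⟨((i, b), (j, d)), ?_, rfl⟩
      simp only [mem_filter, mem_product, TT]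
      exact ⟨⟨⟨⟨hij.1, hy.1.1⟩, ⟨hij.2, hy.1.2⟩⟩, hy.2⟩, trivial⟩
  · rintro ⟨⟨a, b⟩, ⟨c, d⟩⟩ hy
    simp only [mem_coe, mem_filter, mem_product, TT] at hy ⊢
    exact ⟨hy.1.1.1, hy.1.2.1⟩

theorem EE_diag (M i : ℕ) : (EE M i i).card ≤ (OP M).card := by
  unfold EE
  apply Finset.card_le_card_of_injOn (fun y => y.1)
  · rintro ⟨a, b⟩ hy
    simp only [mem_coe, mem_filter, mem_product] at hy ⊢
    exact hy.1.1
  · rintro ⟨a, b⟩ hy ⟨a', b'⟩ hy' h
    simp only [mem_coe, mem_filter, mem_product] at hy hy' h ⊢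
    ext
    · exact h
    · simp only
      omega

theorem EE_symm (M i j : ℕ) : (EE M i j).card = (EE M j i).card := by
  unfold EE
  apply Finset.card_bij (fun y _ => (y.2, y.1))
  · rintro ⟨a, b⟩ hy
    simp only [mem_filter, mem_product] at hy ⊢
    exact ⟨⟨hy.1.2, hy.1.1⟩, hy.2.symm⟩
  · rintro ⟨a, b⟩ _ ⟨a', b'⟩ _ h
    simp only [Prod.mk.injEq] at h ⊢
    exact ⟨h.2, h.1⟩
  · rintro ⟨a, b⟩ hy
    simp only [mem_filter, mem_product] at hy
    refine ⟨(b, a), ?_, rfl⟩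
    simp only [mem_filter, mem_product]
    exact ⟨⟨hy.1.2, hy.1.1⟩, hy.2.symm⟩

theorem EE_lt {M i j : ℕ} (hij : i < j) : (EE M i j).card ≤
    ((Ioc 0 (0 + M)).filter fun n => n.Prime ∧ (n + (2 ^ j - 2 ^ i)).Prime).card := by
  have h0 : 2 ^ i ≤ 2 ^ j := Nat.pow_le_pow_right (by norm_num) hij.le
  unfold EE
  apply Finset.card_le_card_of_injOn (fun y => y.2)
  · rintro ⟨a, b⟩ hy
    simp only [mem_coe, mem_filter, mem_product, mem_OP, mem_Ioc] at hy ⊢
    obtain ⟨⟨⟨_, h1⟩, ⟨h2, h3⟩⟩, h4⟩ := hy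
    have h5 : b + (2 ^ j - 2 ^ i) = a := by omega
    refine ⟨⟨by omega, by omega⟩, h3, ?_⟩
    rw [h5]
    exact h1
  · rintro ⟨a, b⟩ hy ⟨a', b'⟩ hy' h
    simp only [mem_coe, mem_filter, mem_product] at hy hy' h ⊢
    ext
    · simp only
      omega
    · exact h

theorem ratio_pow {i j : ℕ} (hi : 1 ≤ i) (hij : i < j) :
    ((2 ^ j - 2 ^ i : ℕ) : ℝ) / Nat.totient (2 ^ j - 2 ^ i) =
      2 * (((2 ^ (j - i) - 1 : ℕ) : ℝ) / Nat.totient (2 ^ (j - i) - 1)) := by
  have h1 : 2 ^ j - 2 ^ i = 2 ^ i * (2 ^ (j - i) - 1) := by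
    rw [Nat.mul_sub, mul_one, ← pow_add]
    congr 2
    omega
  have h3 : Nat.Coprime (2 ^ i) (2 ^ (j - i) - 1) := by
    apply Nat.Coprime.pow_left
    rw [Nat.coprime_two_left, Nat.odd_sub' Nat.one_le_two_pow]
    refine ⟨fun _ => ?_, fun _ => odd_one⟩
    exact (Nat.even_pow.2 ⟨even_two, by omega⟩)
  have h4 : Nat.totient (2 ^ i) = 2 ^ (i - 1) := by
    rw [Nat.totient_prime_pow Nat.prime_two (by omega)]
    simp
  have h5 : (2 : ℝ) ^ i = 2 ^ (i - 1) * 2 := by
    rw [← pow_succ]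
    congr 1
    omega
  have h6 : (0 : ℝ) < Nat.totient (2 ^ (j - i) - 1) := by
    exact_mod_cast Nat.totient_pos.2 (Nat.pos_of_ne_zero (pow_sub_ne (by omega)))
  rw [h1, Nat.totient_mul h3, h4]
  push_cast
  rw [h5]
  field_simp

/-- bound for the number of solutions of `2^i + q = 2^j + q'` -/
theorem energy_le : ∃ C : ℝ, 0 < C ∧ ∀ L M : ℕ, 2 ≤ M →
    ((∑ i ∈ Icc 1 L, ∑ j ∈ Icc 1 L, (EE M i j).card : ℕ) : ℝ) ≤
      L * (OP M).card + C * L ^ 2 * M / Real.log M ^ 2 := by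
  obtain ⟨C, hC, hps⟩ := PC.pair_sieve
  obtain ⟨R, hR, hrom⟩ := rom_sum
  refine ⟨4 * C * R, by positivity, fun L M hM => ?_⟩
  have hlM : 0 < Real.log M := Real.log_pos (by exact_mod_cast (by omega : 1 < M))
  -- the bound for a pair of different exponents
  obtain ⟨f, hf⟩ : ∃ f : ℕ → ℝ, ∀ k, f k =
    C * (2 * (((2 ^ k - 1 : ℕ) : ℝ) / Nat.totient (2 ^ k - 1))) * M / Real.log M ^ 2 :=
    ⟨_, fun _ => rfl⟩
  have hf0 : ∀ k, 0 ≤ f k := fun k => by rw [hf]; positivity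
  have hlt : ∀ i j, 1 ≤ i → i < j → ((EE M i j).card : ℝ) ≤ f (j - i) := by
    intro i j hi hij
    have h0 : 2 ^ i < 2 ^ j := Nat.pow_lt_pow_right (by norm_num) hij
    have h1 := hps 0 M (2 ^ j - 2 ^ i) hM (by omega)
    rw [ratio_pow hi hij] at h1
    rw [hf]
    refine le_trans ?_ h1
    exact_mod_cast EE_lt hij
  have hall : ∀ i ∈ Icc 1 L, (∑ j ∈ Icc 1 L, ((EE M i j).card : ℝ)) ≤
      (OP M).card + 2 * ∑ k ∈ Icc 1 L, f k := by
    intro i hi
    rw [mem_Icc] at hi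
    have h1 : ∑ j ∈ Icc 1 L, ((EE M i j).card : ℝ) ≤
        ∑ j ∈ Icc 1 L, ((if j = i then ((OP M).card : ℝ) else 0) +
          (if i < j then f (j - i) else 0) + (if j < i then f (i - j) else 0)) := by
      apply Finset.sum_le_sum
      intro j hj
      rw [mem_Icc] at hj
      rcases lt_trichotomy i j with h | h | h
      · rw [if_neg (by omega), if_pos h, if_neg (by omega)]
        have := hlt i j hi.1 h
        linarith
      · subst h
        have : ((EE M i i).card : ℝ) ≤ (OP M).card := by exact_mod_cast EE_diag M i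
        simp only [lt_irrefl, if_true, if_false]
        linarith
      · rw [if_neg (by omega), if_neg (by omega), if_pos h, EE_symm]
        have := hlt j i hj.1 h
        linarith
    refine h1.trans ?_
    rw [Finset.sum_add_distrib, Finset.sum_add_distrib]
    have h2 : ∑ j ∈ Icc 1 L, (if j = i then ((OP M).card : ℝ) else 0) ≤ (OP M).card := by
      rw [Finset.sum_ite_eq']
      split_ifs
      · exact le_rfl
      · positivity
    have h3 : ∑ j ∈ Icc 1 L, (if i < j then f (j - i) else 0) ≤ ∑ k ∈ Icc 1 L, f k := by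
      rw [← Finset.sum_filter]
      have h4 : ∑ j ∈ (Icc 1 L).filter (fun j => i < j), f (j - i) =
          ∑ k ∈ ((Icc 1 L).filter (fun j => i < j)).image (fun j => j - i), f k := by
        rw [Finset.sum_image]
        intro a ha b hb hab
        simp only [coe_filter, mem_Icc, Set.mem_ofPred_eq] at ha hb hab
        omega
      rw [h4]
      apply Finset.sum_le_sum_of_subset_of_nonneg
      · intro k hk
        rw [mem_image] at hk
        obtain ⟨j, hj, rfl⟩ := hk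
        rw [mem_filter, mem_Icc] at hj
        rw [mem_Icc]
        omega
      · intro k _ _
        exact hf0 k
    have h5 : ∑ j ∈ Icc 1 L, (if j < i then f (i - j) else 0) ≤ ∑ k ∈ Icc 1 L, f k := by
      rw [← Finset.sum_filter]
      have h4 : ∑ j ∈ (Icc 1 L).filter (fun j => j < i), f (i - j) =
          ∑ k ∈ ((Icc 1 L).filter (fun j => j < i)).image (fun j => i - j), f k := by
        rw [Finset.sum_image]
        intro a ha b hb hab
        simp only [coe_filter, mem_Icc, Set.mem_ofPred_eq] at ha hb hab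
        omega
      rw [h4]
      apply Finset.sum_le_sum_of_subset_of_nonneg
      · intro k hk
        rw [mem_image] at hk
        obtain ⟨j, hj, rfl⟩ := hk
        rw [mem_filter, mem_Icc] at hj
        rw [mem_Icc]
        omega
      · intro k _ _
        exact hf0 k
    linarith
  have hsumf : ∑ k ∈ Icc 1 L, f k ≤ C * (2 * (R * L)) * M / Real.log M ^ 2 := by
    have h1 : ∑ k ∈ Icc 1 L, f k = C * (2 * ∑ k ∈ Icc 1 L,
        ((2 ^ k - 1 : ℕ) : ℝ) / Nat.totient (2 ^ k - 1)) * M / Real.log M ^ 2 := by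
      rw [Finset.mul_sum, Finset.mul_sum, Finset.sum_mul, Finset.sum_div]
      exact Finset.sum_congr rfl fun k _ => hf k
    rw [h1]
    apply div_le_div_of_nonneg_right _ (by positivity)
    apply mul_le_mul_of_nonneg_right _ (Nat.cast_nonneg _)
    apply mul_le_mul_of_nonneg_left _ hC.le
    have := hrom L
    linarith
  push_cast
  calc ∑ i ∈ Icc 1 L, ∑ j ∈ Icc 1 L, ((EE M i j).card : ℝ)
      ≤ ∑ i ∈ Icc 1 L, (((OP M).card : ℝ) + 2 * (C * (2 * (R * L)) * M / Real.log M ^ 2)) := by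
        apply Finset.sum_le_sum
        intro i hi
        have := hall i hi
        linarith
    _ = L * (OP M).card + 4 * C * R * L ^ 2 * M / Real.log M ^ 2 := by
        rw [sum_const, Nat.card_Icc, nsmul_eq_mul, Nat.add_sub_cancel]
        ring

theorem card_OP_eq (M : ℕ) (hM : 2 ≤ M) : (OP M).card + 1 = Nat.primeCounting M := by
  rw [← Nat.primesLE_card_eq_primeCounting]
  have h1 : Nat.primesLE M = insert 2 (OP M) := by
    ext p
    rw [Nat.mem_primesLE, mem_insert, mem_OP]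
    constructor
    · rintro ⟨h1, h2⟩
      have := h2.two_le
      by_cases h3 : p = 2
      · exact Or.inl h3
      · exact Or.inr ⟨⟨by omega, h1⟩, h2⟩
    · rintro (h | h)
      · subst h
        exact ⟨hM, Nat.prime_two⟩
      · exact ⟨h.1.2, h.2⟩
  rw [h1, Finset.card_insert_of_notMem]
  rw [mem_OP]
  omega

open Classical in
/-- **Romanoff's theorem** -/
theorem romanoff : ∃ c : ℝ, 0 < c ∧ ∃ N₀ : ℕ, ∀ N : ℕ, N₀ ≤ N →
    c * N ≤ (((Icc 1 N).filter fun n => ∃ i q : ℕ, 1 ≤ i ∧ 2 < q ∧ q.Prime ∧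
      n = 2 ^ i + q).card : ℝ) := by
  obtain ⟨C, hC, hE⟩ := energy_le
  refine ⟨1 / (12 * (10 + 4 * C)), by positivity, 30000, fun N hN => ?_⟩
  obtain ⟨M, hM⟩ : ∃ M, M = N / 2 := ⟨_, rfl⟩
  obtain ⟨L, hL⟩ : ∃ L, L = Nat.log 2 M := ⟨_, rfl⟩
  have hMb : 15000 ≤ M := by omega
  have hMN : 2 * M ≤ N := by omega
  have hNM : N ≤ 3 * M := by omega
  have hMr : (15000 : ℝ) ≤ M := by exact_mod_cast hMb
  have h2L : 2 ^ L ≤ M := by
    rw [hL]
    exact Nat.pow_log_le_self 2 (by omega)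
  have h2L' : M < 2 ^ (L + 1) := by
    rw [hL]
    exact Nat.lt_pow_succ_log_self (by norm_num) M
  -- the sums are in the set
  have hsub : (RR L M).card ≤ ((Icc 1 N).filter fun n => ∃ i q : ℕ, 1 ≤ i ∧ 2 < q ∧ q.Prime ∧
      n = 2 ^ i + q).card := by
    apply Finset.card_le_card
    intro n hn
    unfold RR TT at hn
    rw [mem_image] at hn
    obtain ⟨⟨i, q⟩, h1, h2⟩ := hn
    rw [mem_product, mem_OP, mem_Icc] at h1
    obtain ⟨⟨h3, h4⟩, ⟨h5, h6⟩, h7⟩ := h1
    simp only at h2 h3 h4 h5 h6 h7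
    have h8 : 2 ^ i ≤ 2 ^ L := Nat.pow_le_pow_right (by norm_num) h4
    have h9 : 1 ≤ n := by
      rw [← h2]
      exact (by omega : 1 ≤ q).trans (Nat.le_add_left _ _)
    have h10 : n ≤ N := by
      rw [← h2]
      exact (Nat.add_le_add (h8.trans h2L) h6).trans (by omega)
    rw [mem_filter, mem_Icc]
    exact ⟨⟨h9, h10⟩, i, q, h3, h5, h7, h2.symm⟩
  have hsub' : ((RR L M).card : ℝ) ≤ (((Icc 1 N).filter fun n => ∃ i q : ℕ, 1 ≤ i ∧ 2 < q ∧
      q.Prime ∧ n = 2 ^ i + q).card : ℝ) := by exact_mod_cast hsub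
  refine le_trans ?_ hsub'
  -- the logarithm
  obtain ⟨l, hl⟩ : ∃ l : ℝ, l = Real.log M := ⟨_, rfl⟩
  have hlog2 := Real.log_two_gt_d9
  have hlog2' := Real.log_two_lt_d9
  have hl9 : 9 ≤ l := by
    have h1 : Real.log ((2 : ℝ) ^ 13) ≤ Real.log M := Real.log_le_log (by norm_num) (by linarith)
    rw [Real.log_pow, ← hl] at h1
    push_cast at h1
    linarith
  have hl0 : 0 < l := by linarith
  -- bounds for `L`
  have hLl : (L : ℝ) * Real.log 2 ≤ l := by
    have h1 : Real.log ((2 : ℝ) ^ L) ≤ Real.log M :=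
      Real.log_le_log (by positivity) (by exact_mod_cast h2L)
    rwa [Real.log_pow, ← hl] at h1
  have hLl' : l ≤ (L + 1) * Real.log 2 := by
    have h1 : Real.log M ≤ Real.log ((2 : ℝ) ^ (L + 1)) :=
      Real.log_le_log (by linarith) (by exact_mod_cast h2L'.le)
    rw [Real.log_pow, ← hl] at h1
    push_cast at h1
    exact h1
  have hL0 : (0 : ℝ) ≤ L := Nat.cast_nonneg L
  have hLle : (L : ℝ) ≤ 2 * l := by nlinarith
  have hLge : l ≤ L := by nlinarith
  -- bounds for the number of primes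
  obtain ⟨s, hs⟩ : ∃ s : ℝ, s = Real.sqrt (M + 1) := ⟨_, rfl⟩
  have hs2 : s ^ 2 = M + 1 := by
    rw [hs, Real.sq_sqrt (by linarith)]
  have hs100 : 100 ≤ s := by
    rw [hs]
    apply Real.le_sqrt_of_sq_le
    linarith
  have hls : Real.log (M + 1) ≤ 2 * s := by
    have h1 : Real.log (M + 1) = 2 * Real.log s := by
      rw [hs, Real.log_sqrt (by linarith)]
      ring
    have h2 := Real.log_le_sub_one_of_pos (x := s) (by linarith)
    linarith
  have hlls : l ≤ Real.log (M + 1) := by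
    rw [hl]
    exact Real.log_le_log (by linarith) (by linarith)
  have hcard := card_OP_eq M (by omega)
  have hcard' : ((OP M).card : ℝ) + 1 = Nat.primeCounting M := by exact_mod_cast hcard
  have hPge : (M : ℝ) / 2 ≤ (OP M).card * l := by
    have h1 := Chebyshev.pi_ge M
    rw [← hl, div_le_iff₀ hl0, ← hcard'] at h1
    nlinarith
  have hPle : ((OP M).card : ℝ) * l ≤ 5 * M := by
    have h1 := Chebyshev.pi_le_log4_mul_div (x := (M : ℝ)) (by linarith)
    rw [Nat.floor_natCast, ← hcard', Real.log_sqrt (by linarith), ← hl] at h1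
    have h4 : Real.log 4 = 2 * Real.log 2 := by
      rw [show (4 : ℝ) = 2 ^ 2 by norm_num, Real.log_pow]
      push_cast
      ring
    rw [h4] at h1
    have h5 : 2 * Real.log 2 * M / (l / 2) * l = 4 * Real.log 2 * M := by
      field_simp
      ring
    have h6 : Real.sqrt M * l ≤ 2 * M := by
      have h7 : l ≤ 2 * Real.sqrt M := by
        have h8 : l = 2 * Real.log (Real.sqrt M) := by
          rw [hl, Real.log_sqrt (by linarith)]
          ring
        have h9 := Real.log_le_sub_one_of_pos (x := Real.sqrt M) (by positivity)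
        linarith
      have h10 : Real.sqrt M * Real.sqrt M = M := Real.mul_self_sqrt (by linarith)
      nlinarith [Real.sqrt_nonneg (M : ℝ)]
    have h11 : ((OP M).card : ℝ) * l ≤ (2 * Real.log 2 * M / (l / 2) + Real.sqrt M) * l := by
      apply mul_le_mul_of_nonneg_right _ hl0.le
      linarith
    rw [add_mul, h5] at h11
    nlinarith
  -- conclusion
  have hT : (M : ℝ) / 2 ≤ (TT L M).card := by
    unfold TT
    rw [Finset.card_product, Nat.card_Icc, Nat.add_sub_cancel]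
    push_cast
    have : ((OP M).card : ℝ) * l ≤ L * (OP M).card := by
      rw [mul_comm]
      exact mul_le_mul_of_nonneg_right hLge (Nat.cast_nonneg _)
    linarith
  have hcs := cs L M
  rw [energy] at hcs
  have hEn := hE L M (by omega)
  rw [← hl] at hEn
  have h1 : (L : ℝ) * (OP M).card ≤ 10 * M := by
    have : (L : ℝ) * (OP M).card ≤ 2 * l * (OP M).card :=
      mul_le_mul_of_nonneg_right hLle (Nat.cast_nonneg _)
    linarith
  have h2 : C * L ^ 2 * M / l ^ 2 ≤ 4 * C * M := by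
    rw [div_le_iff₀ (by positivity)]
    have h3 : (L : ℝ) ^ 2 ≤ (2 * l) ^ 2 := pow_le_pow_left₀ hL0 hLle 2
    have h4 : C * L ^ 2 * M ≤ C * (2 * l) ^ 2 * M := by
      apply mul_le_mul_of_nonneg_right _ (by linarith)
      exact mul_le_mul_of_nonneg_left h3 hC.le
    linarith
  have h3 : ((TT L M).card : ℝ) ^ 2 ≤ (RR L M).card * ((10 + 4 * C) * M) := by
    refine hcs.trans ?_
    apply mul_le_mul_of_nonneg_left _ (Nat.cast_nonneg _)
    linarith
  have h4 : ((M : ℝ) / 2) ^ 2 ≤ (TT L M).card ^ 2 := pow_le_pow_left₀ (by positivity) hT 2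
  have h5 : (M : ℝ) * (M / 4) ≤ M * ((RR L M).card * (10 + 4 * C)) := by
    calc (M : ℝ) * (M / 4) = (M / 2) ^ 2 := by ring
      _ ≤ _ := h4.trans h3
      _ = _ := by ring
  have h6 : (M : ℝ) / 4 ≤ (RR L M).card * (10 + 4 * C) := le_of_mul_le_mul_left h5 (by linarith)
  have h7 : (N : ℝ) ≤ 3 * M := by exact_mod_cast hNM
  rw [one_div_mul_eq_div, div_le_iff₀ (by positivity)]
  linarith

end Pool.Agent.EWR
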